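import Pool.Agent.H224R2.Mah.Defs

/-! Cauchy-Binet as a sum over all maps. -/

namespace Pool.Agent.H224R2.Mah

open MeasureTheory Set Filter Topology
open scoped ENNReal RealInnerProductSpace

section
variable {n : ℕ} {ι : Type} [Fintype ι]

theorem E1_aux (c : ι → ℝ) (a : ι → Fin n → ℝ) :
    (mat c a).det = ∑ σ : Fin n → ι, (∏ k, c (σ k)) * (∏ k, a (σ k) k) *
      (Matrix.of fun k => a (σ k)).det := by
  classical
  have hent : ∀ k l, mat c a k l = ∑ j, c j * (a j k * a j l) := by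
    intro k l
    simp only [mat, Matrix.sum_apply, Matrix.smul_apply, Matrix.vecMulVec_apply, smul_eq_mul]
  rw [Matrix.det_apply']
  have h1 : ∀ π : Equiv.Perm (Fin n), ∏ k, mat c a (π k) k =
      ∑ σ : Fin n → ι, ∏ k, (c (σ k) * (a (σ k) (π k) * a (σ k) k)) := by
    intro π
    simp only [hent]
    rw [Finset.prod_univ_sum, Fintype.piFinset_univ]
  simp only [h1, Finset.mul_sum]
  rw [Finset.sum_comm]
  apply Finset.sum_congr rfl
  intro σ _
  have h2 : (Matrix.of fun k => a (σ k)).det = ∑ π : Equiv.Perm (Fin n),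
      ((Equiv.Perm.sign π : ℤ) : ℝ) * ∏ k, a (σ k) (π k) := by
    rw [← Matrix.det_transpose, Matrix.det_apply']
    rfl
  rw [h2, Finset.mul_sum]
  apply Finset.sum_congr rfl
  intro π _
  simp only [Finset.prod_mul_distrib]
  ring

/-- E1. Cauchy-Binet, as a sum over all maps `σ : Fin n → ι`. -/
theorem E1_cauchyBinet (c : ι → ℝ) (a : ι → Fin n → ℝ) :
    (n.factorial : ℝ) * (mat c a).det =
      ∑ σ : Fin n → ι, (Matrix.of fun k => a (σ k)).det ^ 2 * ∏ k, c (σ k) := by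
  classical
  have h1 : ∀ ρ : Equiv.Perm (Fin n), (mat c a).det =
      ∑ σ : Fin n → ι, (∏ k, c (σ k)) * (((Equiv.Perm.sign ρ : ℤ) : ℝ) * ∏ k, a (σ (ρ k)) k) *
        (Matrix.of fun k => a (σ k)).det := by
    intro ρ
    rw [E1_aux]
    rw [← Equiv.sum_comp (Equiv.arrowCongr ρ.symm (Equiv.refl ι))]
    apply Finset.sum_congr rfl
    intro σ _
    have e1 : (Equiv.arrowCongr ρ.symm (Equiv.refl ι)) σ = fun k => σ (ρ k) := by
      funext k; simp [Equiv.arrowCongr]
    rw [e1]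
    have e2 : ∏ k, c (σ (ρ k)) = ∏ k, c (σ k) := Equiv.prod_comp ρ (fun k => c (σ k))
    have e3 : (Matrix.of fun k => a (σ (ρ k))).det =
        ((Equiv.Perm.sign ρ : ℤ) : ℝ) * (Matrix.of fun k => a (σ k)).det := by
      rw [← Matrix.det_permute]
      rfl
    rw [e2, e3]
    ring
  have h2 : (n.factorial : ℝ) * (mat c a).det = ∑ ρ : Equiv.Perm (Fin n), (mat c a).det := by
    rw [Finset.sum_const, Finset.card_univ, Fintype.card_perm, Fintype.card_fin, nsmul_eq_mul]
  rw [h2, Finset.sum_congr rfl (fun ρ _ => h1 ρ), Finset.sum_comm]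
  apply Finset.sum_congr rfl
  intro σ _
  have h3 : (Matrix.of fun k => a (σ k)).det = ∑ ρ : Equiv.Perm (Fin n),
      ((Equiv.Perm.sign ρ : ℤ) : ℝ) * ∏ k, a (σ (ρ k)) k := by
    rw [Matrix.det_apply']
    rfl
  rw [← Finset.sum_mul, ← Finset.mul_sum, ← h3]
  ring

end

end Pool.Agent.H224R2.Mah
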