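import Pool.Agent.H224R2.Mah.Defs

/-! The integral of a derivative of a compactly supported function vanishes. -/

namespace Pool.Agent.H224R2.Mah

open MeasureTheory Set Filter Topology
open scoped ENNReal RealInnerProductSpace

/-- L3. `∫ ∂_w f = 0` for compactly supported `C¹` functions. -/
theorem L3_int_zero {E : Type} [NormedAddCommGroup E] [NormedSpace ℝ E] [FiniteDimensional ℝ E]
    [MeasurableSpace E] [BorelSpace E] (μ : Measure E) [μ.IsAddHaarMeasure]
    (f : E → ℝ) (hf : ContDiff ℝ 1 f) (hc : HasCompactSupport f) (w : E) :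
    ∫ x, fderiv ℝ f x w ∂μ = 0 := by
  have hfi : Integrable f μ := hf.continuous.integrable_of_hasCompactSupport hc
  have hf'c : Continuous (fun x => fderiv ℝ f x w) :=
    (hf.continuous_fderiv (by norm_num)).clm_apply continuous_const
  have hf's : HasCompactSupport (fun x => fderiv ℝ f x w) := by
    have h1 := hc.fderiv (𝕜 := ℝ)
    exact h1.comp_left (g := fun L : E →L[ℝ] ℝ => L w) rfl
  have hf'i : Integrable (fun x => fderiv ℝ f x w) μ := hf'c.integrable_of_hasCompactSupport hf's
  have h := integral_mul_fderiv_eq_neg_fderiv_mul_of_integrable (μ := μ) (f := f)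
    (g := fun _ : E => (1 : ℝ)) (v := w) (by simpa using hf'i) (by simp) (by simpa using hfi)
    (fun x _ => hf.differentiable (by norm_num) x) (fun x _ => differentiableAt_const _)
  simp only [fderiv_fun_const, Pi.zero_apply, _root_.zero_apply, mul_zero,
    integral_zero, mul_one] at h
  linarith

end Pool.Agent.H224R2.Mah
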